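import Pool.Agent.N371.UB.Data

/-!
# Minimum-size unbent collections need not have the minimum total number of bends

Plane 4-graphs, orthogonal drawings (`Drawing`), unbent collections (`IsUnbentCollection`), `un`
and `tbn` are defined in `Pool.Agent.N371.UB.Defs`.

There is a plane 4-graph `G` (the square antiprism with one edge subdivided twice, ten vertices
and eighteen edges) with `un G = 2` and `tbn G ≤ 36`, all of whose unbent collections of size two
have at least 37 bends. The answer to Q1 is no.
-/

set_option autoImplicit false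

namespace Pool.Agent.Results.MP_e123e2_co.SizeVersusBends

open Pool.Agent.N371.UB

lemma bends_mkD {pos : Fin 10 → ℤ × ℤ} {ch : Fin 10 → Fin 10 → List (ℤ × ℤ)} (h : Ok pos ch)
    (d : GG.graph.Dart) : (mkD h).bends d = (ch d.fst d.snd).length - 2 := by
  unfold Drawing.bends mkD
  simp only [List.length_map]

lemma totalBends_mkD {pos : Fin 10 → ℤ × ℤ} {ch : Fin 10 → Fin 10 → List (ℤ × ℤ)}
    (h : Ok pos ch) : (mkD h).totalBends =
      ∑ e : Fin 18, ((ch (EU e.val) (EV e.val)).length - 2) := by
  rw [totalBends_eq]
  refine Finset.sum_congr rfl fun e _ => ?_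
  have he : gr.Adj (EU e.val) (EV e.val) := prOf_adj (e, true)
  unfold BB
  rw [dif_pos he, bends_mkD]
  rfl

/-- The two drawings with 37 bends in total. -/
lemma two : ∃ C : Finset (Drawing GG), IsUnbentCollection C ∧ C.card ≤ 2 := by
  classical
  refine ⟨{mkD okA1, mkD okA2}, ?_, Finset.card_le_two⟩
  intro d
  have key : ∀ v w, gr.Adj v w → (both upA1 v w).length - 2 = 0 ∨
      (both upA2 v w).length - 2 = 0 := by decide +kernel
  rcases key _ _ d.adj with h | h
  · exact ⟨mkD okA1, by simp, by rw [bends_mkD]; exact h⟩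
  · exact ⟨mkD okA2, by simp, by rw [bends_mkD]; exact h⟩

/-- The three drawings with 36 bends in total. -/
lemma three : ∃ C : Finset (Drawing GG), IsUnbentCollection C ∧ collectionBends C ≤ 36 := by
  classical
  refine ⟨{mkD okB1, mkD okB2, mkD okB3}, ?_, ?_⟩
  · intro d
    have key : ∀ v w, gr.Adj v w → (both upB1 v w).length - 2 = 0 ∨
        (both upB2 v w).length - 2 = 0 ∨ (both upB3 v w).length - 2 = 0 := by decide +kernel
    rcases key _ _ d.adj with h | h | h
    · exact ⟨mkD okB1, by simp, by rw [bends_mkD]; exact h⟩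
    · exact ⟨mkD okB2, by simp, by rw [bends_mkD]; exact h⟩
    · exact ⟨mkD okB3, by simp, by rw [bends_mkD]; exact h⟩
  · have h1 : (mkD okB1).totalBends + ((mkD okB2).totalBends + (mkD okB3).totalBends) = 36 := by
      rw [totalBends_mkD, totalBends_mkD, totalBends_mkD]
      decide +kernel
    have hle : ∀ (D : Drawing GG) (C : Finset (Drawing GG)),
        collectionBends (insert D C) ≤ D.totalBends + collectionBends C := by
      intro D C
      unfold collectionBends
      by_cases hD : D ∈ C
      · rw [Finset.insert_eq_of_mem hD]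
        exact Nat.le_add_left _ _
      · rw [Finset.sum_insert hD]
    have h2 := hle (mkD okB1) {mkD okB2, mkD okB3}
    have h3 := hle (mkD okB2) {mkD okB3}
    have h4 : collectionBends ({mkD okB3} : Finset (Drawing GG)) = (mkD okB3).totalBends := by
      unfold collectionBends
      rw [Finset.sum_singleton]
    omega

lemma un_eq : un GG = 2 := by
  obtain ⟨C, hC, hc⟩ := two
  have hc2 : C.card = 2 := le_antisymm hc (two_le_card C hC)
  have hmem : 2 ∈ {k | ∃ C : Finset (Drawing GG), IsUnbentCollection C ∧ C.card = k} :=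
    ⟨C, hC, hc2⟩
  unfold un
  apply le_antisymm
  · exact Nat.sInf_le hmem
  · apply le_csInf ⟨2, hmem⟩
    rintro k ⟨C', hC', rfl⟩
    exact two_le_card C' hC'

lemma tbn_le : tbn GG ≤ 36 := by
  obtain ⟨C, hC, hc⟩ := three
  have hmem : collectionBends C ∈
      {b | ∃ C : Finset (Drawing GG), IsUnbentCollection C ∧ collectionBends C = b} :=
    ⟨C, hC, rfl⟩
  exact (Nat.sInf_le hmem).trans hc

/-- There is a plane 4-graph `G` with `un G = 2` and `tbn G ≤ 36` such that every unbent
collection of `G` with `un G` drawings has at least 37 bends in total. -/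
theorem result : ∃ (V : Type) (_ : Fintype V) (G : PlaneGraph V),
    (∃ C : Finset (Drawing G), IsUnbentCollection C ∧ C.card = un G) ∧ un G = 2 ∧ tbn G ≤ 36 ∧
      ∀ C : Finset (Drawing G), IsUnbentCollection C → C.card = un G → 37 ≤ collectionBends C := by
  refine ⟨Fin 10, inferInstance, GG, ?_, un_eq, tbn_le, fun C hC hc => ?_⟩
  · obtain ⟨C, hC, hc⟩ := two
    exact ⟨C, hC, (le_antisymm hc (two_le_card C hC)).trans un_eq.symm⟩
  · rw [un_eq] at hc
    exact lower_card_two C hC hc

end Pool.Agent.Results.MP_e123e2_co.SizeVersusBends
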